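import Mathlib
import Pool.Agent.Run7.h285.V.Stm
import Pool.Agent.Run7.h277.S.SM1

/-!
# Project VAR (helper285), piece GVO: the second moment is the diagonal up to a small error
-/

set_option autoImplicit false

namespace Run7.h270.V

open Finset Filter Polynomial
open Run7.h285.S (Bx uu vv ll gg)
open Run7.h285.G (Gd cor pr MM)
open Run7.h285.V
open Run7.h277.S (mx uu_gg win_shift)
open Pool.Agent.TH892.SW (ff wt)
open Pool.Agent.H373R2.T7 (pz Vz lamz)
open Pool.Agent.H442R2.EHI (evt_log_pow evt_log_ge)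
open Pool.Agent.TH892.OW (S_facts)

/-- telescoping -/
lemma mx_prod {k : ℕ} (f : Fin k → ℤ[X]) (F G : ℤ → ℝ) (a : Fin k → ℤ) (n : ℕ) :
    pr f (fun _ => F) a n - pr f (fun _ => G) a n = ∑ j : Fin k, pr f (mx F G j) a n := by
  unfold pr
  have h := Finset.prod_add_ordered (univ : Finset (Fin k)) (fun l => G ((f l).eval (n : ℤ) + a l))
    (fun l => F ((f l).eval (n : ℤ) + a l) - G ((f l).eval (n : ℤ) + a l))
  simp only [add_sub_cancel] at h
  rw [h, add_sub_cancel_left]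
  refine sum_congr rfl fun j _ => ?_
  have h1 : ∏ l : Fin k, mx F G j l ((f l).eval (n : ℤ) + a l) =
      (∏ l ∈ univ.filter (fun l : Fin k => l < j), mx F G j l ((f l).eval (n : ℤ) + a l)) *
        ∏ l ∈ univ.filter (fun l : Fin k => ¬ l < j), mx F G j l ((f l).eval (n : ℤ) + a l) :=
    (prod_filter_mul_prod_filter_not univ (fun l : Fin k => l < j) _).symm
  have h2 : univ.filter (fun l : Fin k => ¬ l < j) = insert j (univ.filter (fun l : Fin k => j < l)) := by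
    ext l
    simp only [mem_filter, mem_univ, true_and, mem_insert, not_lt]
    constructor
    · intro h
      rcases h.eq_or_lt with h | h
      · exact Or.inl h.symm
      · exact Or.inr h
    · rintro (h | h)
      · exact h.symm.le
      · exact h.le
  rw [h1, h2, prod_insert (by simp)]
  have h3 : ∏ l ∈ univ.filter (fun l : Fin k => l < j), mx F G j l ((f l).eval (n : ℤ) + a l) =
      ∏ l ∈ univ.filter (fun l : Fin k => l < j), F ((f l).eval (n : ℤ) + a l) := by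
    refine prod_congr rfl fun l hl => ?_
    rw [mem_filter] at hl
    unfold mx
    rw [if_neg hl.2.ne, if_pos hl.2]
  have h4 : ∏ l ∈ univ.filter (fun l : Fin k => j < l), mx F G j l ((f l).eval (n : ℤ) + a l) =
      ∏ l ∈ univ.filter (fun l : Fin k => j < l), G ((f l).eval (n : ℤ) + a l) := by
    refine prod_congr rfl fun l hl => ?_
    rw [mem_filter] at hl
    unfold mx
    rw [if_neg hl.2.ne', if_neg (not_lt.2 hl.2.le)]
  have h5 : mx F G j j ((f j).eval (n : ℤ) + a j) = F ((f j).eval (n : ℤ) + a j) - G ((f j).eval (n : ℤ) + a j) := by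
    unfold mx
    rw [if_pos rfl]
  rw [h3, h4, h5]
  ring

lemma mc_symm (g : ℤ[X]) (F G : ℤ → ℝ) (X n n' : ℕ) : mc g F G X n n' = mc g G F X n' n := by
  unfold mc
  exact sum_congr rfl fun c _ => mul_comm _ _

lemma mc_le (g : ℤ[X]) {F G : ℤ → ℝ} {B : ℝ} (hF : ∀ y, |F y| ≤ B) (hG : ∀ y, |G y| ≤ B) (X n n' : ℕ) :
    |mc g F G X n n'| ≤ (2 * X + 1) * B ^ 2 := by
  have hB : 0 ≤ B := (abs_nonneg _).trans (hF 0)
  unfold mc
  refine (abs_sum_le_sum_abs _ _).trans ?_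
  have h1 : ∀ c ∈ Icc (-(X : ℤ)) X, |F (g.eval (n : ℤ) + c) * G (g.eval (n' : ℤ) + c)| ≤ B ^ 2 := by
    intro c _
    rw [abs_mul, sq B]
    exact mul_le_mul (hF _) (hG _) (abs_nonneg _) hB
  refine (sum_le_sum h1).trans (le_of_eq ?_)
  rw [sum_const, Int.card_Icc, nsmul_eq_mul]
  have : ((X : ℤ) + 1 - -(X : ℤ)).toNat = 2 * X + 1 := by omega
  rw [this]
  push_cast
  ring

/-- scaling of the first function -/
lemma mc_scale (g : ℤ[X]) (F G : ℤ → ℝ) (c : ℝ) (X n n' : ℕ) :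
    mc g F G X n n' * c = mc g (fun y => F y * c) G X n n' := by
  unfold mc
  rw [sum_mul]
  exact sum_congr rfl fun _ _ => by ring

/-- the correlation of two products -/
lemma expand2 {k : ℕ} (f : Fin k → ℤ[X]) (P Q : Fin k → ℤ → ℝ) (X n n' : ℕ) :
    ∑ a ∈ Bx k X, pr f P a n * pr f Q a n' = ∏ l, mc (f l) (P l) (Q l) X n n' := by
  unfold mc Bx pr
  rw [Finset.prod_univ_sum]
  exact sum_congr rfl fun a _ => by rw [prod_mul_distrib]

/-- the correlation of the difference of two products -/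
lemma offdiag {k : ℕ} (f : Fin (k + 1) → ℤ[X]) (F G : ℤ → ℝ) (B A : ℝ) (X n n' : ℕ) (hA : 0 ≤ A)
    (hF : ∀ y, |F y| ≤ B) (hG : ∀ y, |G y| ≤ B) (hBA : (2 * (X : ℝ) + 1) * B ^ 2 ≤ A) :
    |∑ a ∈ Bx (k + 1) X, (pr f (fun _ => F) a n - pr f (fun _ => G) a n) *
        (pr f (fun _ => F) a n' - pr f (fun _ => G) a n')| ≤
      ∑ j : Fin (k + 1), A ^ k * (|mc (f j) (fun y => F y - G y) F X n n'| + |mc (f j) (fun y => F y - G y) G X n n'|) := by
  have key : ∀ (K : ℤ → ℝ), (∀ y, |K y| ≤ B) → |∑ a ∈ Bx (k + 1) X, (pr f (fun _ => F) a n - pr f (fun _ => G) a n) *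
      pr f (fun _ => K) a n'| ≤ ∑ j : Fin (k + 1), A ^ k * |mc (f j) (fun y => F y - G y) K X n n'| := by
    intro K hK
    have h1 : ∑ a ∈ Bx (k + 1) X, (pr f (fun _ => F) a n - pr f (fun _ => G) a n) * pr f (fun _ => K) a n' =
        ∑ j : Fin (k + 1), ∏ l, mc (f l) (mx F G j l) K X n n' := by
      simp_rw [mx_prod, sum_mul]
      rw [sum_comm]
      exact sum_congr rfl fun j _ => expand2 f _ _ X n n'
    rw [h1]
    refine (abs_sum_le_sum_abs _ _).trans (sum_le_sum fun j _ => ?_)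
    rw [abs_prod, ← mul_prod_erase univ _ (mem_univ j), mul_comm]
    have e1 : mx F G j j = fun y => F y - G y := by unfold mx; rw [if_pos rfl]
    rw [e1]
    apply mul_le_mul_of_nonneg_right _ (abs_nonneg _)
    calc ∏ l ∈ univ.erase j, |mc (f l) (mx F G j l) K X n n'| ≤ ∏ _l ∈ univ.erase j, A := by
          refine prod_le_prod (fun l _ => abs_nonneg _) fun l hl => ?_
          rw [mem_erase] at hl
          unfold mx
          rw [if_neg hl.1]
          split_ifs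
          · exact (mc_le _ hF hK _ _ _).trans hBA
          · exact (mc_le _ hG hK _ _ _).trans hBA
      _ = _ := by rw [prod_const, card_erase_of_mem (mem_univ j), card_univ, Fintype.card_fin, Nat.add_sub_cancel]
  have h2 : ∑ a ∈ Bx (k + 1) X, (pr f (fun _ => F) a n - pr f (fun _ => G) a n) *
        (pr f (fun _ => F) a n' - pr f (fun _ => G) a n') =
      ∑ a ∈ Bx (k + 1) X, (pr f (fun _ => F) a n - pr f (fun _ => G) a n) * pr f (fun _ => F) a n' -
      ∑ a ∈ Bx (k + 1) X, (pr f (fun _ => F) a n - pr f (fun _ => G) a n) * pr f (fun _ => G) a n' := by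
    rw [← sum_sub_distrib]
    exact sum_congr rfl fun a _ => by ring
  rw [h2]
  refine (abs_sub _ _).trans ?_
  refine (add_le_add (key F hF) (key G hG)).trans (le_of_eq ?_)
  rw [← sum_add_distrib]
  exact sum_congr rfl fun j _ => by ring

/-- the second moment is the diagonal up to the off-diagonal correlations -/
lemma split {k : ℕ} (ω : ℕ → ℝ) (hω : ∀ n, |ω n| ≤ 1) (D : (Fin k → ℤ) → ℕ → ℝ) (X m₀ M H : ℕ) (e : ℝ) (he0 : 0 ≤ e)
    (he : ∀ i i' : ℕ, 1 ≤ i → i ≤ H → 1 ≤ i' → i' ≤ H → i ≠ i' →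
      ∑ m ∈ Ioc m₀ (m₀ + M), |∑ a ∈ Bx k X, D a (m + i) * D a (m + i')| ≤ e) :
    |MM k ω D X m₀ M H - ∑ m ∈ Ioc m₀ (m₀ + M), ∑ n ∈ Ioc m (m + H), ω n ^ 2 * ∑ a ∈ Bx k X, D a n ^ 2| ≤
      (H : ℝ) ^ 2 * e := by
  have h1 : MM k ω D X m₀ M H = ∑ m ∈ Ioc m₀ (m₀ + M), ∑ i ∈ Icc 1 H, ∑ i' ∈ Icc 1 H,
      ω (m + i) * ω (m + i') * ∑ a ∈ Bx k X, D a (m + i) * D a (m + i') := by
    unfold MM
    rw [sum_comm]
    refine sum_congr rfl fun m _ => ?_
    have e1 : ∀ a ∈ Bx k X, (∑ n ∈ Ioc m (m + H), ω n * D a n) ^ 2 =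
        ∑ i ∈ Icc 1 H, ∑ i' ∈ Icc 1 H, ω (m + i) * ω (m + i') * (D a (m + i) * D a (m + i')) := by
      intro a _
      rw [win_shift, sq, sum_mul_sum]
      exact sum_congr rfl fun i _ => sum_congr rfl fun i' _ => by ring
    rw [sum_congr rfl e1, sum_comm]
    refine sum_congr rfl fun i _ => ?_
    rw [sum_comm]
    refine sum_congr rfl fun i' _ => ?_
    rw [mul_sum]
  have h2 : ∑ m ∈ Ioc m₀ (m₀ + M), ∑ n ∈ Ioc m (m + H), ω n ^ 2 * ∑ a ∈ Bx k X, D a n ^ 2 =
      ∑ m ∈ Ioc m₀ (m₀ + M), ∑ i ∈ Icc 1 H, ∑ i' ∈ Icc 1 H,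
        if i' = i then ω (m + i) * ω (m + i') * ∑ a ∈ Bx k X, D a (m + i) * D a (m + i') else 0 := by
    refine sum_congr rfl fun m _ => ?_
    rw [win_shift]
    refine sum_congr rfl fun i hi => ?_
    rw [sum_ite_eq' (Icc 1 H) i, if_pos hi, ← sq]
    congr 1
    exact sum_congr rfl fun a _ => by ring
  have h3 : MM k ω D X m₀ M H - ∑ m ∈ Ioc m₀ (m₀ + M), ∑ n ∈ Ioc m (m + H), ω n ^ 2 * ∑ a ∈ Bx k X, D a n ^ 2 =
      ∑ i ∈ Icc 1 H, ∑ i' ∈ Icc 1 H, ∑ m ∈ Ioc m₀ (m₀ + M),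
        if i' = i then 0 else ω (m + i) * ω (m + i') * ∑ a ∈ Bx k X, D a (m + i) * D a (m + i') := by
    rw [h1, h2, ← sum_sub_distrib]
    have e2 : ∀ m, (∑ i ∈ Icc 1 H, ∑ i' ∈ Icc 1 H,
        ω (m + i) * ω (m + i') * ∑ a ∈ Bx k X, D a (m + i) * D a (m + i')) -
        (∑ i ∈ Icc 1 H, ∑ i' ∈ Icc 1 H,
        if i' = i then ω (m + i) * ω (m + i') * ∑ a ∈ Bx k X, D a (m + i) * D a (m + i') else 0) =
        ∑ i ∈ Icc 1 H, ∑ i' ∈ Icc 1 H,
        if i' = i then 0 else ω (m + i) * ω (m + i') * ∑ a ∈ Bx k X, D a (m + i) * D a (m + i') := by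
      intro m
      rw [← sum_sub_distrib]
      refine sum_congr rfl fun i _ => ?_
      rw [← sum_sub_distrib]
      refine sum_congr rfl fun i' _ => ?_
      split_ifs <;> ring
    rw [sum_congr rfl fun m _ => e2 m, sum_comm]
    exact sum_congr rfl fun i _ => sum_comm
  rw [h3]
  refine (abs_sum_le_sum_abs _ _).trans ?_
  have h4 : ∀ i ∈ Icc 1 H, |∑ i' ∈ Icc 1 H, ∑ m ∈ Ioc m₀ (m₀ + M),
      if i' = i then 0 else ω (m + i) * ω (m + i') * ∑ a ∈ Bx k X, D a (m + i) * D a (m + i')| ≤ H * e := by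
    intro i hi
    refine (abs_sum_le_sum_abs _ _).trans ?_
    have h5 : ∀ i' ∈ Icc 1 H, |∑ m ∈ Ioc m₀ (m₀ + M),
        if i' = i then 0 else ω (m + i) * ω (m + i') * ∑ a ∈ Bx k X, D a (m + i) * D a (m + i')| ≤ e := by
      intro i' hi'
      rw [mem_Icc] at hi hi'
      by_cases hii : i' = i
      · simp only [hii, if_true, sum_const_zero, abs_zero]
        exact he0
      · refine (abs_sum_le_sum_abs _ _).trans ?_
        refine le_trans (sum_le_sum fun m _ => ?_) ((he i i' hi.1 hi.2 hi'.1 hi'.2 (Ne.symm hii)))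
        rw [if_neg hii, abs_mul, abs_mul]
        have h6 : |ω (m + i)| * |ω (m + i')| ≤ 1 := mul_le_one₀ (hω _) (abs_nonneg _) (hω _)
        calc |ω (m + i)| * |ω (m + i')| * |∑ a ∈ Bx k X, D a (m + i) * D a (m + i')|
            ≤ 1 * |∑ a ∈ Bx k X, D a (m + i) * D a (m + i')| := mul_le_mul_of_nonneg_right h6 (abs_nonneg _)
          _ = _ := one_mul _
    refine (sum_le_sum h5).trans (le_of_eq ?_)
    rw [sum_const, Nat.card_Icc, nsmul_eq_mul, Nat.add_sub_cancel]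
  refine (sum_le_sum h4).trans (le_of_eq ?_)
  rw [sum_const, Nat.card_Icc, nsmul_eq_mul, Nat.add_sub_cancel]
  ring

/-- **GVO** -/
theorem gvo {k : ℕ} (f : Fin k → ℤ[X]) (_hf : ∀ l, Gd (f l)) (h : ∀ l, S_GCM (f l)) : S_GVO f := by
  rcases k with _ | k
  · -- the empty product
    refine fun U C D => ⟨0, fun E _ => ⟨0, 0, fun X _ m₀ M H _ _ _ _ ω _ => ?_⟩⟩
    unfold MM pr
    simp only [univ_eq_empty, prod_empty, sub_self, sum_const_zero, ne_eq, OfNat.ofNat_ne_zero, not_false_eq_true,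
      zero_pow, mul_zero, abs_zero]
    have : 0 ≤ Real.log X := Real.log_natCast_nonneg X
    positivity
  intro U C D
  choose E1 hE1 using fun l => h l (U + 3 * k + 3) C D
  refine ⟨max (univ.sup E1) 1, ?_⟩
  intro E hE
  have hEl : ∀ l, E1 l ≤ E := fun l => (le_sup (mem_univ l)).trans ((le_max_left _ _).trans hE)
  have hE' : 1 ≤ E := (le_max_right _ _).trans hE
  choose B X1 hB using fun l => hE1 l E (hEl l)
  obtain ⟨X2, hX2⟩ := Pool.Agent.TH892.SW.sq_ff E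
  have hev : ∀ᶠ X : ℕ in atTop, (10000 : ℝ) ≤ Real.log X ∧ (k : ℝ) + 1 ≤ Real.log X := by
    filter_upwards [evt_log_ge 10000, evt_log_ge (k + 1)] with X h1 h4
    exact ⟨h1, h4⟩
  obtain ⟨X3, hX3⟩ := eventually_atTop.1 hev
  refine ⟨univ.sup B, max (max (univ.sup X1) X2) X3, ?_⟩
  intro X hX m₀ M H hH1 hHD hM hm ω hω
  obtain ⟨hL, hkL⟩ := hX3 X ((le_max_right _ _).trans hX)
  have hBX := fun l => hB l X ((le_sup (f := X1) (mem_univ l)).trans ((le_max_left _ _).trans ((le_max_left _ _).trans hX)))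
  have hsf := hX2 X ((le_max_right _ _).trans ((le_max_left _ _).trans hX))
  obtain ⟨hX1, -, -, -, -, hX100, hXs⟩ := S_facts X hL
  have hX0 : (1 : ℝ) ≤ X := by exact_mod_cast hX1
  set L := Real.log X with hLdef
  have hL1 : 1 ≤ L := by linarith
  have hL0 : 0 < L := by linarith
  set z := ⌊L ^ E⌋₊ with hz
  have hLE : L ≤ L ^ E := by
    calc L = L ^ 1 := (pow_one _).symm
      _ ≤ L ^ E := pow_le_pow_right₀ hL1 hE'
  have hz3 : 3 ≤ z := by
    rw [hz]; apply Nat.le_floor; push_cast; linarith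
  have hzle : (z : ℝ) ≤ L ^ E := Nat.floor_le (by positivity)
  have hff := (hsf z (by omega) hzle).1
  have hgg : ∀ y, |gg z y| ≤ 6 * L := by
    intro y
    unfold gg
    have h1 := abs_add_le (ff z (1 * y)) (ff z (-1 * y))
    have h2 := hff (1 * y)
    have h3 := hff (-1 * y)
    linarith
  have huu : ∀ y, |uu y| ≤ 7 * L := by
    intro y
    unfold uu
    split_ifs
    · rw [abs_one]; linarith
    · rw [abs_zero]; linarith
  have hvv : ∀ y, |vv z y| ≤ 7 * L := by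
    intro y
    have e : vv z y = uu y - gg z y := by linarith [uu_gg z y]
    rw [e]
    have h1 := abs_sub (uu y) (gg z y)
    have h2 := hgg y
    have h3 : |uu y| ≤ 1 := by
      unfold uu
      split_ifs
      · rw [abs_one]
      · rw [abs_zero]; norm_num
    linarith
  have hggf : (fun y => uu y - vv z y) = gg z := funext fun y => uu_gg z y
  have hA : (2 * (X : ℝ) + 1) * (7 * L) ^ 2 ≤ X * L ^ 3 := by
    have h1 : (2 * (X : ℝ) + 1) * (7 * L) ^ 2 ≤ (3 * X) * (7 * L) ^ 2 := by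
      apply mul_le_mul_of_nonneg_right _ (by positivity)
      linarith
    have h2 : (3 * (X : ℝ)) * (7 * L) ^ 2 = 147 * (X * L ^ 2) := by ring
    have h3 : X * L ^ 3 = L * (X * L ^ 2) := by ring
    have h4 : 0 ≤ (X : ℝ) * L ^ 2 := by positivity
    rw [h3]
    nlinarith
  -- the correlations
  have hcor : ∀ (l : Fin (k + 1)) (K : ℤ → ℝ), (∀ y, |K y| ≤ 7 * L) → ∀ i i' : ℕ, 1 ≤ i → i ≤ H → 1 ≤ i' → i' ≤ H → i ≠ i' →
      ∑ m ∈ Ioc m₀ (m₀ + M), |mc (f l) (gg z) K X (m + i) (m + i')| ≤ 7 * L * (X * M / L ^ (U + 3 * k + 3)) := by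
    intro l K hK i i' hi1 hi hi1' hi' hii
    have h7 : 0 < 7 * L := by linarith
    have hpow : (X : ℝ) ^ (1 / 3 : ℝ) * L ^ (B l) ≤ (M : ℝ) ^ ((f l).natDegree - 1) := by
      refine le_trans ?_ (hM l)
      apply mul_le_mul_of_nonneg_left _ (by positivity)
      exact pow_le_pow_right₀ hL1 (le_sup (mem_univ l))
    have h8 := hBX l m₀ M i' i (Ne.symm hii) ((by exact_mod_cast hi' : (i' : ℝ) ≤ H).trans hHD)
      ((by exact_mod_cast hi : (i : ℝ) ≤ H).trans hHD) hpow (hm l) (fun y => K y * (7 * L)⁻¹) (fun y => by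
        rw [abs_mul, abs_of_pos (inv_pos.2 h7)]
        have := hK y
        rw [← div_eq_mul_inv, div_le_one h7]
        exact this)
    have h9 : ∑ m ∈ Ioc m₀ (m₀ + M), |mc (f l) (gg z) K X (m + i) (m + i')| =
        7 * L * ∑ m ∈ Ioc m₀ (m₀ + M), |mc (f l) (fun y => K y * (7 * L)⁻¹) (gg z) X (m + i') (m + i)| := by
      rw [mul_sum]
      refine sum_congr rfl fun m _ => ?_
      rw [← mc_scale, abs_mul, abs_of_pos (inv_pos.2 h7), mc_symm]
      field_simp
    rw [h9]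
    exact mul_le_mul_of_nonneg_left h8 h7.le
  have hoff : ∀ i i' : ℕ, 1 ≤ i → i ≤ H → 1 ≤ i' → i' ≤ H → i ≠ i' →
      ∑ m ∈ Ioc m₀ (m₀ + M), |∑ a ∈ Bx (k + 1) X, (pr f (fun _ => uu) a (m + i) - pr f (fun _ => vv z) a (m + i)) *
        (pr f (fun _ => uu) a (m + i') - pr f (fun _ => vv z) a (m + i'))| ≤
      ((k : ℝ) + 1) * ((X * L ^ 3) ^ k * (2 * (7 * L * (X * M / L ^ (U + 3 * k + 3))))) := by
    intro i i' hi1 hi hi1' hi' hii
    refine (sum_le_sum fun m _ => offdiag f uu (vv z) (7 * L) (X * L ^ 3) X (m + i) (m + i') (by positivity) huu hvv hA).trans ?_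
    rw [sum_comm]
    have h10 : ∀ j ∈ (univ : Finset (Fin (k + 1))), ∑ m ∈ Ioc m₀ (m₀ + M), ((X : ℝ) * L ^ 3) ^ k *
        (|mc (f j) (fun y => uu y - vv z y) uu X (m + i) (m + i')| + |mc (f j) (fun y => uu y - vv z y) (vv z) X (m + i) (m + i')|) ≤
        (X * L ^ 3) ^ k * (2 * (7 * L * (X * M / L ^ (U + 3 * k + 3)))) := by
      intro j _
      rw [← mul_sum]
      apply mul_le_mul_of_nonneg_left _ (by positivity)
      rw [hggf, sum_add_distrib]
      have h11 := hcor j uu huu i i' hi1 hi hi1' hi' hii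
      have h12 := hcor j (vv z) hvv i i' hi1 hi hi1' hi' hii
      linarith
    refine (sum_le_sum h10).trans (le_of_eq ?_)
    rw [sum_const, card_univ, Fintype.card_fin, nsmul_eq_mul]
    push_cast
    ring
  have hM0 : (0 : ℝ) ≤ M := Nat.cast_nonneg _
  refine (split ω hω (fun a n => pr f (fun _ => uu) a n - pr f (fun _ => vv z) a n) X m₀ M H _ (by positivity) hoff).trans ?_
  have e1 : (L ^ (U + 3 * k + 3) : ℝ) = L ^ U * (L ^ 3) ^ k * L ^ 3 := by rw [pow_add, pow_add, pow_mul]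
  have e2 : (H : ℝ) ^ 2 * (((k : ℝ) + 1) * ((X * L ^ 3) ^ k * (2 * (7 * L * (X * M / L ^ (U + 3 * k + 3)))))) =
      (X : ℝ) ^ (k + 1) * (M * (H : ℝ) ^ 2 / L ^ U) * ((14 * ((k : ℝ) + 1)) / L ^ 2) := by
    rw [e1, mul_pow]
    field_simp
    ring
  rw [e2]
  have h5 : (14 * ((k : ℝ) + 1)) / L ^ 2 ≤ 1 := by
    rw [div_le_one (by positivity)]
    nlinarith
  have h6 : 0 ≤ (X : ℝ) ^ (k + 1) * (M * (H : ℝ) ^ 2 / L ^ U) := by positivity
  exact mul_le_of_le_one_right h6 h5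

end Run7.h270.V
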